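import Pool.Agent.H43.AG2.Gram

/-!
# Bounded blocks of nullable variables: equality of the languages
-/

set_option autoImplicit false

namespace Pool.Agent.H43.AG2

open Classical Pool.Agent.H43.AG

variable {V T : Type}

theorem word_inj (V' : Type) (u v : List T) (h : (word u : Form V' T) = word v) : u = v := by
  have hinj : Function.Injective (Sum.inr : T → V' ⊕ T) := Sum.inr_injective
  exact List.map_injective_iff.2 hinj h

theorem inl_word {V' : Type} (C : V') (u : List T) : Sum.inl C ∉ (word u : Form V' T) := by
  simp [word]

theorem encL_wordonly (N : Set V) (c : ℕ) (w : List T) (hw : w ≠ []) :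
    encL N c [] (word w) = word w := by
  rcases List.eq_nil_or_concat w with rfl | ⟨w', a, rfl⟩
  · exact absurd rfl hw
  · rw [List.concat_eq_append, word_append]
    have e : (word [a] : Form V T) = [Sum.inr a] := rfl
    rw [e, encL_term N c a, enc_word N c w' [Sum.inr a], enc_out N c [] (Sum.inr a) [] trivial]
    rw [word_append]
    rfl

theorem reach_step (G : Grammar V T) {u : List T} {A : V} {r d : Form V T}
    (hr : Reach G (word u ++ Sum.inl A :: d)) (h : ([Sum.inl A], r) ∈ G.P) :
    Reach G (word u ++ r ++ d) :=
  Relation.ReflTransGen.tail hr ⟨u, [Sum.inl A], r, d, h, by simp, rfl⟩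

theorem up [Finite V] [Finite T] (G : Grammar V T) (N : Set V) (c : ℕ)
    {l : Form (Cell V T c) T} {A : V} {p : Form V T → Form (Cell V T c) T}
    (hl : LS N c l A p) {R : Set (Form V T)} (hR : R ∈ Ch G A) (u w : List T)
    (e : Form (Cell V T c) T) (h : ∀ r ∈ R, Tree (GG G N c) w (word u ++ p r ++ e)) :
    Tree (GG G N c) w (word u ++ l ++ e) := by
  rcases hR with ⟨hu, ⟨r0, hr0⟩, rfl⟩ | ⟨hu, r, hrP, rfl⟩
  · refine AG.Tree.node _ _ (Step.all u l e ((ls_univ G N c hl).2 hu)
      ⟨p r0, Or.inl ⟨A, p, r0, hl, hr0, rfl⟩⟩) ?_
    rintro x ⟨r', hr', rfl⟩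
    rcases hr' with ⟨A', p', r, hl', hrP, hr2⟩ | hg
    · simp only at hl' hr2
      obtain ⟨_, _, _, rfl, rfl⟩ := ls_unique N c hl hl' [] [] [] [] rfl
      rw [hr2]
      exact h r hrP
    · exact (ls_gs G N c hl hg [] [] [] [] rfl).elim
  · refine AG.Tree.node _ _ (Step.ex u l (p r) e (fun hh => hu ((ls_univ G N c hl).1 hh))
      (Or.inl ⟨A, p, r, hl, hrP, rfl⟩)) ?_
    rintro x hx
    rw [Set.mem_singleton_iff] at hx
    rw [hx]
    exact h r rfl

theorem down [Finite V] [Finite T] (G : Grammar V T) (N : Set V) (c : ℕ)
    {l : Form (Cell V T c) T} {A : V} {p : Form V T → Form (Cell V T c) T}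
    (hl : LS N c l A p) (u : List T) (e x : Form (Cell V T c) T)
    (C : Set (Form (Cell V T c) T)) (hC : Step (GG G N c) x C) (hx : x = word u ++ l ++ e) :
    ∃ R ∈ Ch G A, ∀ r ∈ R, word u ++ p r ++ e ∈ C := by
  cases hC with
  | ex y l' r' e' hu hP =>
    rcases hP with ⟨A', p', r, hl', hrP, hr2⟩ | hg
    · simp only at hl' hr2
      obtain ⟨rfl, rfl, rfl, rfl, rfl⟩ := ls_unique N c hl' hl y u e' e hx
      refine ⟨{r}, Or.inr ⟨fun hh => hu ((ls_univ G N c hl).2 hh), r, hrP, rfl⟩, ?_⟩
      intro r1 hr1
      rw [Set.mem_singleton_iff] at hr1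
      rw [hr1, hr2]
      rfl
    · exact (ls_gs G N c hl hg u y e e' hx.symm).elim
  | all y l' e' hu hP =>
    obtain ⟨r', hP⟩ := hP
    rcases hP with ⟨A', p', r, hl', hrP, hr2⟩ | hg
    · simp only at hl' hr2
      obtain ⟨rfl, rfl, rfl, rfl, rfl⟩ := ls_unique N c hl' hl y u e' e hx
      refine ⟨{r | ([Sum.inl A'], r) ∈ G.P},
        Or.inl ⟨(ls_univ G N c hl).1 hu, ⟨r, hrP⟩, rfl⟩, ?_⟩
      intro r1 hr1
      exact ⟨p' r1, Or.inl ⟨A', p', r1, hl, hr1, rfl⟩, rfl⟩
    · exact (ls_gs G N c hl hg u y e e' hx.symm).elim

theorem pp_cons (G : Grammar V T) (N : Set V) (c : ℕ) {l r : Form (Cell V T c) T}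
    (h : (l, r) ∈ PP G N c) : ∃ C a, l = Sum.inl C :: a ∧ C ≠ bot c [] := by
  rcases h with ⟨A, p, r', hl, _, _⟩ | hg
  · simp only at hl
    cases hl with
    | one A b z t _ _ hb _ => exact ⟨_, _, by rw [symT_cons], by simp [bot]⟩
    | two Z b z t _ _ _ _ => exact ⟨_, _, rfl, by simp [bot, mk]⟩
    | bt A b _ hb =>
      refine ⟨_, _, rfl, fun h => ?_⟩
      simp only [bot, Prod.mk.injEq, and_true] at h
      exact tk_cons_ne c A b hb h
    | last Z e _ _ => exact ⟨_, _, rfl, by simp [bot, lst]⟩
  · simp only at hg
    cases hg with
    | stay a e _ _ => exact ⟨_, _, rfl, by simp [bot, lst]⟩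
    | drop a e _ _ _ => exact ⟨_, _, rfl, by simp [bot, lst]⟩

theorem step_cell [Finite V] [Finite T] (G : Grammar V T) (N : Set V) (c : ℕ)
    {x : Form (Cell V T c) T} {C : Set (Form (Cell V T c) T)} (hC : Step (GG G N c) x C) :
    ∃ (y : List T) (D : Cell V T c) (e : Form (Cell V T c) T),
      x = word y ++ Sum.inl D :: e ∧ D ≠ bot c [] := by
  cases hC with
  | ex y l r e _ hP =>
    obtain ⟨D, a, rfl, hD⟩ := pp_cons G N c hP
    exact ⟨y, D, a ++ e, by simp, hD⟩
  | all y l e _ hP =>
    obtain ⟨r, hP⟩ := hP
    obtain ⟨D, a, rfl, hD⟩ := pp_cons G N c hP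
    exact ⟨y, D, a ++ e, by simp, hD⟩

theorem no_step_word [Finite V] [Finite T] (G : Grammar V T) (N : Set V) (c : ℕ) (v : List T)
    {C : Set (Form (Cell V T c) T)} (hC : Step (GG G N c) (word v) C) : False := by
  obtain ⟨y, D, e, h, _⟩ := step_cell G N c hC
  have : Sum.inl D ∈ (word v : Form (Cell V T c) T) := by
    rw [h]
    simp
  exact inl_word D v this

theorem no_step_bot [Finite V] [Finite T] (G : Grammar V T) (N : Set V) (c : ℕ) (u : List T)
    {C : Set (Form (Cell V T c) T)}
    (hC : Step (GG G N c) (word u ++ [Sum.inl (bot c [])]) C) : False := by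
  obtain ⟨y, D, e, h, hD⟩ := step_cell G N c hC
  obtain ⟨_, h2, _⟩ := var_unique u y _ D [] e h
  exact hD h2.symm

/-- the form with a final block after terminals only -/
theorem encL_guess (N : Set V) (c : ℕ) (u : List T) (a : T) (A : V) (b : List V)
    (hb : ∀ B ∈ A :: b, B ∈ N) :
    encL N c [] (word (u ++ [a]) ++ (A :: b).map Sum.inl) =
      word u ++ [Sum.inl (lst c [] (Sum.inr a) (A :: b))] := by
  have e : (word (u ++ [a]) ++ (A :: b).map Sum.inl : Form V T)
      = word u ++ (Sum.inr a :: (A :: b).map Sum.inl) := by
    rw [word_append]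
    simp [word]
  rw [e, encL_word N c u _ ⟨Sum.inr a, by simp, trivial⟩,
    encL_last N c [] (Sum.inr a) (A :: b) trivial hb]
  rfl

theorem forth [Finite V] [Finite T] (G : Grammar V T) (hG : ContextFree G) (N : Set V) (c : ℕ)
    (hB : Blocks G N c) (w : List T) (hw : w ≠ []) (g : Form V T) (h : Tree G w g) :
    Reach G g → Tree (GG G N c) w (encL N c [] g) ∧
      (∀ (u : List T) (b : List V), g = word u ++ b.map Sum.inl → (∀ B ∈ b, B ∈ N) → w ≠ u →
        Tree (GG G N c) w (word u ++ [Sum.inl (bot c b)])) := by
  induction h with
  | leaf =>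
    intro _
    constructor
    · rw [encL_wordonly N c w hw]
      exact AG.Tree.leaf
    · intro u b hg _ hu
      rcases b with _ | ⟨B, b⟩
      · rw [List.map_nil, List.append_nil] at hg
        exact absurd (word_inj V w u hg) hu
      · have : Sum.inl B ∈ (word w : Form V T) := by
          rw [hg]
          simp
        exact absurd this (inl_word B w)
  | node g C hC hT ih =>
    intro hr
    have hself := AG.Tree.node g C hC hT
    obtain ⟨u, A, d, R, hR, rfl, rfl⟩ := (step_iff G hG _ _).1 hC
    have P2 : ∀ (u' : List T) (b : List V),
        (word u ++ Sum.inl A :: d : Form V T) = word u' ++ b.map Sum.inl →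
        (∀ B ∈ b, B ∈ N) → w ≠ u' →
          Tree (GG G N c) w (word u' ++ [Sum.inl (bot c b)]) := by
      intro u' b hg hN hu
      rcases b with _ | ⟨B, b⟩
      · rw [List.map_nil, List.append_nil] at hg
        have : Sum.inl A ∈ (word u' : Form V T) := by
          rw [← hg]
          simp
        exact absurd this (inl_word A u')
      · rw [List.map_cons] at hg
        obtain ⟨rfl, rfl, rfl⟩ := var_unique u u' A B d (b.map Sum.inl) hg
        have hl : (A :: b).length ≤ c := by
          refine hB.block _ hr (word u) (A :: b) [] ?_ hN
          simp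
        have := up G N c (LS.bt A b (hN A (by simp)) hl) hR u w [] (fun r hrR => ?_)
        · simpa using this
        · have hrP := ch_mem G hR hrR
          rw [List.append_nil]
          by_cases hO : HasOut N (r ++ b.map Sum.inl)
          · rw [← encL_word N c u _ hO]
            have := (ih _ ⟨r, hrR, rfl⟩ (reach_step G hr hrP)).1
            simp only [List.append_assoc] at this
            exact this
          · obtain ⟨b2, hb2, hN2⟩ := no_out N _ hO
            rw [hb2, encL_bot N c b2 [] hN2, List.nil_append]
            refine (ih _ ⟨r, hrR, rfl⟩ (reach_step G hr hrP)).2 u b2 ?_ hN2 hu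
            simp only [List.append_assoc, hb2]
    refine ⟨?_, P2⟩
    by_cases hm : HasOut N (Sum.inl A :: d) ∨ u = []
    · obtain ⟨l, p, e, hl, h1, h2⟩ := sim G N c hB u A d hr hm
      rw [h1]
      refine up G N c hl hR u w e (fun r hrR => ?_)
      have hrP := ch_mem G hR hrR
      rw [← h2 r hrP]
      exact (ih _ ⟨r, hrR, rfl⟩ (reach_step G hr hrP)).1
    · push Not at hm
      obtain ⟨hO, hu0⟩ := hm
      obtain ⟨b0, hb0, hN0⟩ := no_out N _ hO
      rcases b0 with _ | ⟨A', b⟩
      · simp at hb0
      · simp only [List.map_cons, List.cons.injEq, Sum.inl.injEq] at hb0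
        obtain ⟨rfl, rfl⟩ := hb0
        rcases List.eq_nil_or_concat u with rfl | ⟨u0, a, rfl⟩
        · exact absurd rfl hu0
        · rw [List.concat_eq_append] at hr P2 hself ⊢
          have hl : (A :: b).length ≤ c := by
            refine hB.block _ hr (word (u0 ++ [a])) (A :: b) [] ?_ hN0
            simp
          have e1 : (word (u0 ++ [a]) ++ Sum.inl A :: b.map Sum.inl : Form V T)
              = word (u0 ++ [a]) ++ (A :: b).map Sum.inl := rfl
          rw [e1, encL_guess N c u0 a A b hN0]
          by_cases hwu : w = u0 ++ [a]
          · obtain ⟨v, hv, htv⟩ := tree_unshift G hG w _ hself (u0 ++ [a]) _ rfl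
            have hv0 : v = [] := by
              rw [hwu] at hv
              simpa using hv
            subst hv0
            have hg : GS G c [Sum.inl (lst c [] (Sum.inr a) (A :: b))] [Sum.inr a] :=
              GS.drop a (A :: b) (by simp) hl htv
            have hst := Step.ex (G := GG G N c) u0 _ _ [] (gs_univ G N c hg) (Or.inr hg)
            rw [List.append_nil] at hst
            refine AG.Tree.node _ _ hst ?_
            rintro x hx
            rw [Set.mem_singleton_iff] at hx
            have e2 : (word u0 ++ [Sum.inr a] ++ [] : Form (Cell V T c) T) = word w := by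
              rw [hwu, word_append, List.append_nil]
              rfl
            rw [hx, e2]
            exact AG.Tree.leaf
          · have hg : GS G c [Sum.inl (lst c [] (Sum.inr a) (A :: b))]
                [Sum.inr a, Sum.inl (bot c (A :: b))] := GS.stay a (A :: b) (by simp) hl
            have hst := Step.ex (G := GG G N c) u0 _ _ [] (gs_univ G N c hg) (Or.inr hg)
            rw [List.append_nil] at hst
            refine AG.Tree.node _ _ hst ?_
            rintro x hx
            rw [Set.mem_singleton_iff] at hx
            have := P2 (u0 ++ [a]) (A :: b) rfl hN0 hwu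
            have e2 : (word u0 ++ [Sum.inr a, Sum.inl (bot c (A :: b))] ++ [] :
                Form (Cell V T c) T) = word (u0 ++ [a]) ++ [Sum.inl (bot c (A :: b))] := by
              rw [word_append]
              simp [word]
            rw [hx, e2]
            exact this

theorem tree_word_eq [Finite V] [Finite T] (G : Grammar V T) (N : Set V) (c : ℕ)
    (w u : List T) (h : Tree (GG G N c) w (word u)) : w = u := by
  generalize hx : (word u : Form (Cell V T c) T) = x at h
  cases h with
  | leaf => exact (word_inj _ u w hx).symm
  | node _ C hC _ =>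
    rw [← hx] at hC
    exact (no_step_word G N c u hC).elim

theorem back [Finite V] [Finite T] (G : Grammar V T) (hG : ContextFree G) (N : Set V) (c : ℕ)
    (hB : Blocks G N c) (w : List T) (x : Form (Cell V T c) T)
    (h : Tree (GG G N c) w x) :
    (∀ g, Reach G g → x = encL N c [] g → Tree G w g) ∧
      (∀ (u : List T) (b : List V), Reach G (word u ++ b.map Sum.inl) → (∀ B ∈ b, B ∈ N) →
        x = word u ++ [Sum.inl (bot c b)] → Tree G w (word u ++ b.map Sum.inl)) := by
  induction h with
  | leaf =>
    constructor
    · intro g hr he
      rcases form_cases g with ⟨v, rfl⟩ | ⟨u, A, d, rfl⟩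
      · by_cases hv : v = []
        · subst hv
          have : Sum.inl (bot c []) ∈ (word w : Form (Cell V T c) T) := by
            rw [he]
            simp [word, encL]
          exact absurd this (inl_word _ w)
        · rw [encL_wordonly N c v hv] at he
          rw [word_inj _ w v he]
          exact AG.Tree.leaf
      · exfalso
        by_cases hm : HasOut N (Sum.inl A :: d) ∨ u = []
        · obtain ⟨l, p, e, hl, h1, _⟩ := sim G N c hB u A d hr hm
          obtain ⟨C, a, rfl⟩ := ls_cons N c hl
          rw [h1] at he
          have : Sum.inl C ∈ (word w : Form (Cell V T c) T) := by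
            rw [he]
            simp
          exact inl_word _ w this
        · push Not at hm
          obtain ⟨hO, hu0⟩ := hm
          obtain ⟨b0, hb0, hN0⟩ := no_out N _ hO
          rcases b0 with _ | ⟨A', b⟩
          · simp at hb0
          · simp only [List.map_cons, List.cons.injEq, Sum.inl.injEq] at hb0
            obtain ⟨rfl, rfl⟩ := hb0
            rcases List.eq_nil_or_concat u with rfl | ⟨u0, a, rfl⟩
            · exact absurd rfl hu0
            · rw [List.concat_eq_append] at he
              have e1 : (word (u0 ++ [a]) ++ Sum.inl A :: b.map Sum.inl : Form V T)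
                  = word (u0 ++ [a]) ++ (A :: b).map Sum.inl := rfl
              rw [e1, encL_guess N c u0 a A b hN0] at he
              have : Sum.inl (lst c [] (Sum.inr a) (A :: b)) ∈
                  (word w : Form (Cell V T c) T) := by
                rw [he]
                simp
              exact inl_word _ w this
    · intro u b _ _ he
      have : Sum.inl (bot c b) ∈ (word w : Form (Cell V T c) T) := by
        rw [he]
        simp
      exact absurd this (inl_word _ w)
  | node x C hC hT ih =>
    constructor
    · intro g hr he
      rcases form_cases g with ⟨v, rfl⟩ | ⟨u, A, d, rfl⟩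
      · by_cases hv : v = []
        · subst hv
          have he' : x = word [] ++ [Sum.inl (bot c [])] := by
            rw [he]
            simp [word, encL]
          rw [he'] at hC
          exact (no_step_bot G N c [] hC).elim
        · rw [encL_wordonly N c v hv] at he
          rw [he] at hC
          exact (no_step_word G N c v hC).elim
      · by_cases hm : HasOut N (Sum.inl A :: d) ∨ u = []
        · obtain ⟨l, p, e, hl, h1, h2⟩ := sim G N c hB u A d hr hm
          rw [h1] at he
          obtain ⟨R, hR, hRC⟩ := down G N c hl u e x C hC he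
          refine AG.Tree.node _ ((fun r => word u ++ r ++ d) '' R)
            ((step_iff G hG _ _).2 ⟨u, A, d, R, hR, rfl, rfl⟩) ?_
          rintro x' ⟨r, hrR, rfl⟩
          have hrP := ch_mem G hR hrR
          exact (ih _ (hRC r hrR)).1 _ (reach_step G hr hrP) (h2 r hrP).symm
        · push Not at hm
          obtain ⟨hO, hu0⟩ := hm
          obtain ⟨b0, hb0, hN0⟩ := no_out N _ hO
          rcases b0 with _ | ⟨A', b⟩
          · simp at hb0
          · simp only [List.map_cons, List.cons.injEq, Sum.inl.injEq] at hb0
            obtain ⟨rfl, rfl⟩ := hb0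
            rcases List.eq_nil_or_concat u with rfl | ⟨u0, a, rfl⟩
            · exact absurd rfl hu0
            · rw [List.concat_eq_append] at he hr ⊢
              have hl : (A :: b).length ≤ c := by
                refine hB.block _ hr (word (u0 ++ [a])) (A :: b) [] ?_ hN0
                simp
              have e1 : (word (u0 ++ [a]) ++ Sum.inl A :: b.map Sum.inl : Form V T)
                  = word (u0 ++ [a]) ++ (A :: b).map Sum.inl := rfl
              rw [e1, encL_guess N c u0 a A b hN0] at he
              have hg0 : GS G c [Sum.inl (lst c [] (Sum.inr a) (A :: b))]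
                  [Sum.inr a, Sum.inl (bot c (A :: b))] := GS.stay a (A :: b) (by simp) hl
              cases hC with
              | ex y l' r' e' hu hP =>
                rcases hP with ⟨A', p', r, hl', hrP, hr2⟩ | hg
                · exact (ls_gs G N c hl' hg0 y u0 e' [] (by rw [he]; simp)).elim
                · have key : ∀ (a2 : T) (e2 : List V), e2.length ≤ c →
                      (word y ++ [Sum.inl (lst c [] (Sum.inr a2) e2)] ++ e' :
                        Form (Cell V T c) T) =
                        word u0 ++ [Sum.inl (lst c [] (Sum.inr a) (A :: b))] →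
                      y = u0 ∧ a2 = a ∧ e2 = A :: b ∧ e' = [] := by
                    intro a2 e2 hk h0
                    have h0' : word y ++ Sum.inl (lst c [] (Sum.inr a2) e2) :: e' =
                        word u0 ++ Sum.inl (lst c [] (Sum.inr a) (A :: b)) :: [] := by
                      rw [← h0]
                      simp
                    obtain ⟨k1, k2, k3⟩ := var_unique y u0 _ _ _ _ h0'
                    simp only [lst, Prod.mk.injEq, Option.some.injEq, Sum.inr.injEq,
                      true_and] at k2
                    exact ⟨k1, k2.1, tk_inj c _ _ hk hl k2.2, k3⟩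
                  simp only at hg
                  cases hg with
                  | stay a2 e2 _ hk =>
                    obtain ⟨rfl, rfl, rfl, rfl⟩ := key a2 e2 hk he
                    refine (ih _ rfl).2 (y ++ [a2]) (A :: b) hr hN0 ?_
                    rw [word_append]
                    simp [word]
                  | drop a2 e2 _ hk htr =>
                    obtain ⟨rfl, rfl, rfl, rfl⟩ := key a2 e2 hk he
                    have h1 := hT _ rfl
                    have e2 : (word y ++ [Sum.inr a2] ++ [] : Form (Cell V T c) T)
                        = word (y ++ [a2]) := by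
                      rw [word_append, List.append_nil]
                      rfl
                    rw [e2] at h1
                    have h2 := tree_word_eq G N c w _ h1
                    have h3 := tree_left G hG (y ++ [a2]) [] _ htr
                    rw [List.append_nil, ← h2] at h3
                    rw [← h2]
                    exact h3
              | all y l' e' hu hP =>
                obtain ⟨r', hP⟩ := hP
                rcases hP with ⟨A', p', r, hl', hrP, hr2⟩ | hg
                · exact (ls_gs G N c hl' hg0 y u0 e' [] (by rw [he]; simp)).elim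
                · exact (gs_univ G N c hg hu).elim
    · intro u b hr hN he
      rcases b with _ | ⟨A, b⟩
      · rw [he] at hC
        exact (no_step_bot G N c u hC).elim
      · have hl : (A :: b).length ≤ c := hB.block _ hr (word u) (A :: b) [] (by simp) hN
        have hr' : Reach G (word u ++ Sum.inl A :: b.map Sum.inl) := hr
        obtain ⟨R, hR, hRC⟩ := down G N c (LS.bt A b (hN A (by simp)) hl) u [] x C hC
          (by rw [he]; simp)
        refine AG.Tree.node _ ((fun r => word u ++ r ++ b.map Sum.inl) '' R)
          ((step_iff G hG _ _).2 ⟨u, A, b.map Sum.inl, R, hR, rfl, rfl⟩) ?_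
        rintro x' ⟨r, hrR, rfl⟩
        have hrP := ch_mem G hR hrR
        have hmem := hRC r hrR
        have hrr := reach_step G hr' hrP
        by_cases hO : HasOut N (r ++ b.map Sum.inl)
        · refine (ih _ hmem).1 _ hrr ?_
          simp only [List.append_assoc, List.append_nil]
          rw [encL_word N c u _ hO]
        · obtain ⟨b2, hb2, hN2⟩ := no_out N _ hO
          have e3 : (word u ++ r ++ b.map Sum.inl : Form V T) = word u ++ b2.map Sum.inl := by
            simp only [List.append_assoc, hb2]
          simp only [e3]
          rw [e3] at hrr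
          refine (ih _ hmem).2 u b2 hrr hN2 ?_
          simp only [hb2]
          rw [encL_bot N c b2 [] hN2]
          simp

end Pool.Agent.H43.AG2
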