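import Pool.Agent.H43.AG.CF

/-!
# Bounded blocks of nullable variables: the encoding
-/

set_option autoImplicit false

namespace Pool.Agent.H43.AG2

open Classical Pool.Agent.H43.AG

variable {V T : Type}

/-- the symbol is a terminal or a variable outside `N` -/
def Out (N : Set V) : V ⊕ T → Prop
  | Sum.inl A => A ∉ N
  | Sum.inr _ => True

/-- blocks of at most `c` variables -/
abbrev Blk (V : Type) (c : ℕ) : Type := {b : List V // b.length ≤ c}

/-- cells: a block, possibly a symbol, possibly a final block -/
abbrev Cell (V T : Type) (c : ℕ) : Type := Blk V c × Option (V ⊕ T) × Option (Blk V c)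

def tk (c : ℕ) (b : List V) : Blk V c :=
  ⟨b.take c, by rw [List.length_take]; exact min_le_left _ _⟩

def mk (c : ℕ) (b : List V) (z : V ⊕ T) : Cell V T c := (tk c b, some z, none)

noncomputable def sym (c : ℕ) (b : List V) (z : V ⊕ T) : Cell V T c ⊕ T :=
  match b, z with
  | [], Sum.inr a => Sum.inr a
  | b, z => Sum.inl (mk c b z)

noncomputable def enc (N : Set V) (c : ℕ) : List V → Form V T → Form (Cell V T c) T
  | _, [] => []
  | b, z :: f => match z with
    | Sum.inl A => if A ∈ N then enc N c (b ++ [A]) f
        else sym c b (Sum.inl A) :: enc N c [] f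
    | Sum.inr a => sym c b (Sum.inr a) :: enc N c [] f

theorem enc_out (N : Set V) (c : ℕ) (b : List V) (z : V ⊕ T) (f : Form V T) (hz : Out N z) :
    enc N c b (z :: f) = sym c b z :: enc N c [] f := by
  rcases z with A | a
  · have : A ∉ N := hz
    simp [enc, this]
  · simp [enc]

theorem enc_in (N : Set V) (c : ℕ) (b : List V) (A : V) (f : Form V T) (hA : A ∈ N) :
    enc N c b (Sum.inl A :: f) = enc N c (b ++ [A]) f := by
  simp [enc, hA]

theorem enc_append (N : Set V) (c : ℕ) (z : V ⊕ T) (hz : Out N z) (q : Form V T) :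
    ∀ (p : Form V T) (b : List V),
      enc N c b (p ++ z :: q) = enc N c b (p ++ [z]) ++ enc N c [] q
  | [], b => by
    rw [List.nil_append, List.nil_append, enc_out N c b z q hz, enc_out N c b z [] hz]
    simp [enc]
  | y :: p, b => by
    rw [List.cons_append, List.cons_append]
    by_cases hy : Out N y
    · rw [enc_out N c b y _ hy, enc_out N c b y _ hy, enc_append N c z hz q p []]
      rfl
    · rcases y with A | a
      · have hA : A ∈ N := not_not.1 hy
        rw [enc_in N c b A _ hA, enc_in N c b A _ hA, enc_append N c z hz q p _]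
      · exact absurd trivial hy

theorem enc_word (N : Set V) (c : ℕ) (u : List T) (f : Form V T) :
    enc N c [] (word u ++ f) = word u ++ enc N c [] f := by
  induction u with
  | nil => rfl
  | cons a u ih =>
    have e : (word (a :: u) ++ f : Form V T) = Sum.inr a :: (word u ++ f) := rfl
    rw [e, enc_out N c [] (Sum.inr a) _ trivial, ih]
    rfl

theorem enc_block (N : Set V) (c : ℕ) (f : Form V T) : ∀ (b0 b : List V), (∀ B ∈ b0, B ∈ N) →
    enc N c b (b0.map Sum.inl ++ f) = enc N c (b ++ b0) f
  | [], b, _ => by simp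
  | A :: b0, b, h => by
    rw [List.map_cons, List.cons_append, enc_in N c b A _ (h A (by simp)),
      enc_block N c f b0 _ (fun B hB => h B (by simp [hB]))]
    simp

/-- the first symbol outside `N` -/
theorem first_out (N : Set V) (a : T) : ∀ d : Form V T,
    ∃ (b : List V) (z : V ⊕ T) (e : Form V T), d ++ [Sum.inr a] = b.map Sum.inl ++ z :: e ∧
      (∀ B ∈ b, B ∈ N) ∧ Out N z
  | [] => ⟨[], Sum.inr a, [], rfl, by simp, trivial⟩
  | y :: d => by
    by_cases hy : Out N y
    · exact ⟨[], y, d ++ [Sum.inr a], rfl, by simp, hy⟩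
    · rcases y with A | a'
      · obtain ⟨b, z, e, h1, h2, h3⟩ := first_out N a d
        refine ⟨A :: b, z, e, by simp [h1], ?_, h3⟩
        intro B hB
        rcases List.mem_cons.1 hB with rfl | hB
        · exact not_not.1 hy
        · exact h2 B hB
      · exact absurd trivial hy

theorem mk_inj (c : ℕ) (b b' : List V) (z z' : V ⊕ T) (hb : b.length ≤ c)
    (hb' : b'.length ≤ c) (h : mk c b z = mk c b' z') : b = b' ∧ z = z' := by
  simp only [mk, tk, Prod.mk.injEq, Subtype.mk.injEq, Option.some.injEq, and_true] at h
  rw [List.take_of_length_le hb, List.take_of_length_le hb'] at h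
  exact h

theorem sym_eq_cons (c : ℕ) (A : V) (b : List V) (z : V ⊕ T) :
    sym c (A :: b) z = Sum.inl (mk c (A :: b) z) := by
  rcases z with _ | _ <;> rfl

theorem sym_nil_inl (c : ℕ) (A : V) :
    (sym c [] (Sum.inl A : V ⊕ T)) = Sum.inl (mk c [] (Sum.inl A)) := rfl

theorem sym_inj (c : ℕ) (b b' : List V) (z z' : V ⊕ T) (hb : b.length ≤ c)
    (hb' : b'.length ≤ c) (h : sym c b z = sym c b' z') : b = b' ∧ z = z' := by
  have key : ∀ (b : List V) (z : V ⊕ T), (∃ a, b = [] ∧ z = Sum.inr a ∧ sym c b z = Sum.inr a) ∨
      sym c b z = Sum.inl (mk c b z) := by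
    intro b z
    rcases b with _ | ⟨A, b⟩
    · rcases z with A | a
      · exact Or.inr rfl
      · exact Or.inl ⟨a, rfl, rfl, rfl⟩
    · exact Or.inr (sym_eq_cons c A b z)
  rcases key b z with ⟨a, h1, h2, h3⟩ | h3 <;> rcases key b' z' with ⟨a', h1', h2', h3'⟩ | h3'
  · rw [h3, h3'] at h
    simp only [Sum.inr.injEq] at h
    rw [h1, h1', h2, h2', h]
    exact ⟨rfl, rfl⟩
  · rw [h3, h3'] at h
    simp at h
  · rw [h3, h3'] at h
    simp at h
  · rw [h3, h3'] at h
    exact mk_inj c b b' z z' hb hb' (by simpa using h)

theorem enc_length_pos (N : Set V) (c : ℕ) (b : List V) (p : Form V T) (z : V ⊕ T)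
    (hz : Out N z) : 1 ≤ (enc N c b (p ++ [z])).length := by
  induction p generalizing b with
  | nil =>
    rw [List.nil_append, enc_out N c b z [] hz]
    simp
  | cons y p ih =>
    rw [List.cons_append]
    by_cases hy : Out N y
    · rw [enc_out N c b y _ hy]
      simp
    · rcases y with A | a
      · rw [enc_in N c b A _ (not_not.1 hy)]
        exact ih _
      · exact absurd trivial hy

/-- some symbol of `f` is outside `N` -/
def HasOut (N : Set V) (f : Form V T) : Prop := ∃ y ∈ f, Out N y

/-- the variables of a form -/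
def vars (f : Form V T) : List V := f.filterMap Sum.getLeft?

theorem vars_map (b : List V) : vars (b.map Sum.inl : Form V T) = b := by
  induction b with
  | nil => rfl
  | cons A b ih =>
    simp only [vars] at ih
    simp [vars, ih]

theorem no_out (N : Set V) (f : Form V T) (h : ¬ HasOut N f) :
    ∃ b : List V, f = b.map Sum.inl ∧ ∀ B ∈ b, B ∈ N := by
  induction f with
  | nil => exact ⟨[], rfl, by simp⟩
  | cons y f ih =>
    obtain ⟨b, hb, hN⟩ := ih (fun ⟨z, hz, hz2⟩ => h ⟨z, by simp [hz], hz2⟩)
    rcases y with A | a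
    · have hA : A ∈ N := by
        by_contra hA
        exact h ⟨Sum.inl A, by simp, hA⟩
      refine ⟨A :: b, by simp [hb], ?_⟩
      intro B hB
      rcases List.mem_cons.1 hB with rfl | hB
      · exact hA
      · exact hN B hB
    · exact absurd ⟨Sum.inr a, by simp, trivial⟩ h

theorem not_hasOut_map (N : Set V) (b : List V) (h : ∀ B ∈ b, B ∈ N) :
    ¬ HasOut N (b.map Sum.inl : Form V T) := by
  rintro ⟨y, hy, hy2⟩
  obtain ⟨B, hB, rfl⟩ := List.mem_map.1 hy
  exact hy2 (h B hB)

/-- the cell with symbol `z`, block `b` and final block `e` -/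
def lst (c : ℕ) (b : List V) (z : V ⊕ T) (e : List V) : Cell V T c :=
  (tk c b, some z, some (tk c e))

/-- the final cell of a form consisting of variables of `N` -/
def bot (c : ℕ) (b : List V) : Cell V T c := (tk c b, none, none)

/-- the last cell -/
noncomputable def symL (c : ℕ) (b : List V) (z : V ⊕ T) (e : List V) : Cell V T c ⊕ T :=
  match e, z with
  | [], Sum.inr a => sym c b (Sum.inr a)
  | e, z => Sum.inl (lst c b z e)

/-- the encoding with the final block -/
noncomputable def encL (N : Set V) (c : ℕ) : List V → Form V T → Form (Cell V T c) T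
  | b, [] => [Sum.inl (bot c b)]
  | b, z :: f =>
    if Out N z then
      (if HasOut N f then sym c b z :: encL N c [] f else [symL c b z (vars f)])
    else encL N c (b ++ vars [z]) f

theorem encL_in (N : Set V) (c : ℕ) (b : List V) (A : V) (f : Form V T) (hA : A ∈ N) :
    encL N c b (Sum.inl A :: f) = encL N c (b ++ [A]) f := by
  have : ¬ Out N (Sum.inl A : V ⊕ T) := fun h => h hA
  rw [encL, if_neg this]
  rfl

theorem encL_out (N : Set V) (c : ℕ) (b : List V) (z : V ⊕ T) (f : Form V T) (hz : Out N z)
    (hf : HasOut N f) : encL N c b (z :: f) = sym c b z :: encL N c [] f := by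
  rw [encL, if_pos hz, if_pos hf]

theorem encL_last (N : Set V) (c : ℕ) (b : List V) (z : V ⊕ T) (e : List V) (hz : Out N z)
    (he : ∀ B ∈ e, B ∈ N) :
    encL N c b (z :: e.map Sum.inl) = [symL c b z e] := by
  rw [encL, if_pos hz, if_neg (not_hasOut_map N e he), vars_map]

theorem encL_append (N : Set V) (c : ℕ) (z : V ⊕ T) (hz : Out N z) (q : Form V T)
    (hq : HasOut N q) : ∀ (p : Form V T) (b : List V),
      encL N c b (p ++ z :: q) = enc N c b (p ++ [z]) ++ encL N c [] q
  | [], b => by
    rw [List.nil_append, List.nil_append, encL_out N c b z q hz hq, enc_out N c b z [] hz]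
    simp [enc]
  | y :: p, b => by
    rw [List.cons_append, List.cons_append]
    by_cases hy : Out N y
    · rw [encL_out N c b y _ hy ⟨z, by simp, hz⟩, enc_out N c b y _ hy,
        encL_append N c z hz q hq p []]
      rfl
    · rcases y with A | a
      · have hA : A ∈ N := not_not.1 hy
        rw [encL_in N c b A _ hA, enc_in N c b A _ hA, encL_append N c z hz q hq p _]
      · exact absurd trivial hy

theorem encL_term (N : Set V) (c : ℕ) (a : T) : ∀ (p : Form V T) (b : List V),
      encL N c b (p ++ [Sum.inr a]) = enc N c b (p ++ [Sum.inr a])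
  | [], b => by
    have := encL_last N c b (Sum.inr a) [] trivial (by simp)
    rw [List.nil_append]
    rw [List.map_nil] at this
    rw [this, enc_out N c b (Sum.inr a) [] trivial]
    simp [enc, symL]
  | y :: p, b => by
    rw [List.cons_append]
    by_cases hy : Out N y
    · rw [encL_out N c b y _ hy ⟨Sum.inr a, by simp, trivial⟩, enc_out N c b y _ hy,
        encL_term N c a p []]
    · rcases y with A | a'
      · have hA : A ∈ N := not_not.1 hy
        rw [encL_in N c b A _ hA, enc_in N c b A _ hA, encL_term N c a p _]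
      · exact absurd trivial hy

theorem encL_block (N : Set V) (c : ℕ) (f : Form V T) : ∀ (b0 b : List V), (∀ B ∈ b0, B ∈ N) →
    encL N c b (b0.map Sum.inl ++ f) = encL N c (b ++ b0) f
  | [], b, _ => by simp
  | A :: b0, b, h => by
    rw [List.map_cons, List.cons_append, encL_in N c b A _ (h A (by simp)),
      encL_block N c f b0 _ (fun B hB => h B (by simp [hB]))]
    simp

theorem encL_bot (N : Set V) (c : ℕ) (b0 b : List V) (h : ∀ B ∈ b0, B ∈ N) :
    encL N c b (b0.map Sum.inl : Form V T) = [Sum.inl (bot c (b ++ b0))] := by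
  have := encL_block N c ([] : Form V T) b0 b h
  rw [List.append_nil] at this
  rw [this, encL]

theorem encL_word (N : Set V) (c : ℕ) (u : List T) (f : Form V T) (hf : HasOut N f) :
    encL N c [] (word u ++ f) = word u ++ encL N c [] f := by
  induction u with
  | nil => rfl
  | cons a u ih =>
    have e : (word (a :: u) ++ f : Form V T) = Sum.inr a :: (word u ++ f) := rfl
    obtain ⟨y, hy, hy2⟩ := hf
    rw [e, encL_out N c [] (Sum.inr a) _ trivial ⟨y, by simp [hy], hy2⟩, ih]
    rfl

theorem encL_pos (N : Set V) (c : ℕ) : ∀ (f : Form V T) (b : List V),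
    1 ≤ (encL N c b f).length
  | [], b => by simp [encL]
  | y :: f, b => by
    rw [encL]
    split_ifs with h1 h2
    · simp
    · simp
    · exact encL_pos N c f _

/-- every form ends in a block of `N` or has a last symbol outside `N` -/
theorem split_out (N : Set V) : ∀ d : Form V T, HasOut N d →
    ∃ (b : List V) (z : V ⊕ T) (e : Form V T), d = b.map Sum.inl ++ z :: e ∧
      (∀ B ∈ b, B ∈ N) ∧ Out N z
  | [], h => by
    obtain ⟨y, hy, _⟩ := h
    simp at hy
  | y :: d, h => by
    by_cases hy : Out N y
    · exact ⟨[], y, d, rfl, by simp, hy⟩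
    · rcases y with A | a'
      · have hd : HasOut N d := by
          obtain ⟨x, hx, hx2⟩ := h
          rcases List.mem_cons.1 hx with rfl | hx
          · exact absurd hx2 hy
          · exact ⟨x, hx, hx2⟩
        obtain ⟨b, z, e, h1, h2, h3⟩ := split_out N d hd
        refine ⟨A :: b, z, e, by simp [h1], ?_, h3⟩
        intro B hB
        rcases List.mem_cons.1 hB with rfl | hB
        · exact not_not.1 hy
        · exact h2 B hB
      · exact absurd trivial hy

end Pool.Agent.H43.AG2
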