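import Pool.Agent.H43.AG2.Bis

/-!
# Bounded blocks of nullable variables: the theorem
-/

set_option autoImplicit false

namespace Pool.Agent.H43.AG2

open Classical Pool.Agent.H43.AG

variable {V T : Type}

theorem finE_pos (N : Set V) (c : ℕ) (t : Option (List V)) (p : Form V T) (z : V ⊕ T)
    (hz : Out N z) : 1 ≤ (finE N c t (p ++ [z])).length := by
  cases t with
  | none => exact enc_length_pos N c [] p z hz
  | some e => exact encL_pos N c _ _

theorem finE_two (N : Set V) (c : ℕ) (t : Option (List V)) (r p : Form V T) (z : V ⊕ T)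
    (hz : Out N z) (hr : ∃ y ∈ r, Out N y) :
    2 ≤ (finE N c t (r ++ p ++ [z])).length := by
  obtain ⟨y, hy, hy2⟩ := hr
  obtain ⟨r1, r2, rfl⟩ := List.append_of_mem hy
  cases t with
  | none =>
    have e1 : (r1 ++ y :: r2) ++ p ++ [z] = r1 ++ y :: ((r2 ++ p) ++ [z]) := by simp
    rw [e1]
    have h1 := enc_length_pos N c [] r1 y hy2
    have h2 := enc_length_pos N c [] (r2 ++ p) z hz
    rw [finE, enc_append N c y hy2, List.length_append]
    omega
  | some e =>
    have e1 : ((r1 ++ y :: r2) ++ p ++ [z]) ++ e.map Sum.inl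
        = r1 ++ y :: ((r2 ++ p) ++ z :: e.map Sum.inl) := by simp
    have h1 := enc_length_pos N c [] r1 y hy2
    have h2 := encL_pos N c ((r2 ++ p) ++ z :: e.map Sum.inl) []
    rw [finE, e1, encL_append N c y hy2 _ ⟨z, by simp, hz⟩, List.length_append]
    omega

theorem gg_shape [Finite V] [Finite T] (G : Grammar V T) (N : Set V) (c : ℕ) :
    LmShape (GG G N c) := by
  rintro ⟨l, r⟩ h
  obtain ⟨C, a, rfl, _⟩ := pp_cons G N c h
  exact ⟨[], C, a, r, rfl, rfl⟩

theorem gg_non [Finite V] [Finite T] (G : Grammar V T) (N : Set V) (c : ℕ)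
    (hB : Blocks G N c) : NonContracting (GG G N c) := by
  rintro ⟨l, r'⟩ (⟨A, p, r, hl, hrP, hr2⟩ | hg)
  · simp only at hl hr2 ⊢
    subst hr2
    cases hl with
    | one A b z t hA hz hb ht =>
      simp only [List.length_cons, List.length_nil]
      exact finE_pos N c t (r ++ b.map Sum.inl) z hz
    | two Z b z t hZ hz hb ht =>
      simp only [List.length_cons, List.length_nil]
      exact finE_two N c t r (b.map Sum.inl) z hz (hB.out A r hZ hrP)
    | bt A b hA hb => exact encL_pos N c _ _
    | last Z e hZ he => exact encL_pos N c _ _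
  · simp only at hg ⊢
    cases hg with
    | stay a e _ _ => simp
    | drop a e _ _ _ => simp

theorem gg_lang [Finite V] [Finite T] (G : Grammar V T) (hG : ContextFree G) (N : Set V)
    (c : ℕ) (hB : Blocks G N c) : Lang (GG G N c) = Lang G \ {[]} := by
  ext w
  constructor
  · intro h
    have h' : Tree (GG G N c) w [Sum.inl (startCell G N c)] := h
    have hw : w ≠ [] := by
      intro h0
      obtain ⟨t, ht⟩ := tree_treeD (GG G N c) w _ h'
      have := length_le (GG G N c) (gg_non G N c hB) w t _ ht
      rw [h0] at this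
      simp at this
    refine ⟨?_, hw⟩
    rw [← start_enc] at h'
    exact (back G hG N c hB w _ h').1 _ Relation.ReflTransGen.refl rfl
  · rintro ⟨h, hw⟩
    have := (forth G hG N c hB w hw _ h Relation.ReflTransGen.refl).1
    rw [start_enc] at this
    exact this

theorem blocks_thm [Finite V] [Finite T] (G : Grammar V T) (hG : ContextFree G) (N : Set V)
    (c : ℕ) (hB : Blocks G N c) : ∃ (V' : Type) (_ : Finite V') (G' : Grammar V' T),
      LmShape G' ∧ NonContracting G' ∧ Lang G' = Lang G \ {[]} := by
  have hfin : Finite (Blk V c) := (List.finite_length_le V c).to_subtype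
  exact ⟨Cell V T c, inferInstance, GG G N c, gg_shape G N c, gg_non G N c hB,
    gg_lang G hG N c hB⟩

end Pool.Agent.H43.AG2
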